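import Pool.Agent.Y126.SH.Defs

/-!
# Pure integral systems and maximally degenerate reduction
-/

set_option autoImplicit false

namespace Pool.Agent.Y126.SH

open Polynomial Pool.Agent.Y800

/-- The representation `ρ` is maximally degenerate at the prime `p`: for a geometric Frobenius element
`σ` at a place above `p` and an element `g` (a generator of the tame inertia group) with
`ρ(g) ρ(σ) = ρ(σ) ρ(g) ^ p`, `ρ(g)` is unipotent with one Jordan block. -/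
def OneBlockAt {k : Type} [Field k] {n : ℕ} (ρ : GQ →* GL (Fin n) k) (p : ℕ) : Prop :=
  ∃ (P : Ideal ZBar) (σ g : GQ), P.IsMaximal ∧ (p : ZBar) ∈ P ∧ IsGeomFrob p P σ ∧
    ρ g * ρ σ = ρ σ * ρ g ^ p ∧ IsNilpotent ((ρ g : Matrix (Fin n) (Fin n) k) - 1) ∧
    ((ρ g : Matrix (Fin n) (Fin n) k) - 1) ^ (n - 1) ≠ 0

namespace IntegralSystem

variable {n : ℕ}

/-- The properties of the realisations of a pure motive of weight `w ≥ 0` (with Hodge numbers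
`h^{r,w-r} = 0` for `r < 0`) over `ℚ` with a lattice, with good reduction outside the finite set `S` of
primes and semistable reduction in `S`. No polarization. -/
structure PureSystem (S : Finset ℕ) (w : ℕ) (T : IntegralSystem n) : Prop where
  /-- the representations are continuous -/
  continuous : ∀ (ℓ : ℕ) [Fact ℓ.Prime],
    Continuous fun g => (T.rho ℓ g : Matrix (Fin n) (Fin n) ℤ_[ℓ])
  /-- good reduction outside `S` -/
  good : ∀ p : ℕ, p.Prime → p ∉ S → T.GoodAt w p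
  /-- semistable reduction in `S` -/
  semistable : ∀ p : ℕ, p.Prime → p ∈ S → T.SemistableAt p
  /-- Hodge-Tate weights of `V_ℓ` at `ℓ` -/
  weights : ∀ (ℓ : ℕ) [Fact ℓ.Prime], ∃ c : ℕ,
    WeightsAt (T.rat ℓ) (fun g => algebraMap ℤ_[ℓ] ℚ_[ℓ] (chi ℓ g : ℤ_[ℓ])) ℓ c
  /-- Fontaine-Laffaille weights of `T_ℓ / ℓ` at `ℓ`, for almost all `ℓ` -/
  residualWeights : ∃ N : ℕ, ∀ (ℓ : ℕ) [Fact ℓ.Prime], N < ℓ →
    WeightsAt (T.res ℓ) (fun g => PadicInt.toZMod (chi ℓ g : ℤ_[ℓ])) ℓ (w * n)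

/-- `T` is maximally degenerate for the primes `ℓ` in `Λ`: for each `ℓ` in `Λ` the representation
`V_ℓ`, and for almost all `ℓ` in `Λ` also `T_ℓ / ℓ`, is maximally degenerate at a prime `p ≠ ℓ` in
`S`. -/
structure IsDegenerate (S : Finset ℕ) (Λ : Set ℕ) (T : IntegralSystem n) : Prop where
  rational : ∀ (ℓ : ℕ) [Fact ℓ.Prime], ℓ ∈ Λ → ∃ p ∈ S, p.Prime ∧ ℓ ≠ p ∧ OneBlockAt (T.rat ℓ) p
  residual : ∃ N : ℕ, ∀ (ℓ : ℕ) [Fact ℓ.Prime], ℓ ∈ Λ → N < ℓ →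
    ∃ p ∈ S, p.Prime ∧ ℓ ≠ p ∧ OneBlockAt (T.res ℓ) p

/-- The class of systems of the theorem. There is no condition of degeneration in rank `1`, and in
rank `2` and odd weight. -/
def InClass (S : Finset ℕ) (w : ℕ) (Λ : Set ℕ) (T : IntegralSystem n) : Prop :=
  T.PureSystem S w ∧ (n = 1 ∨ (n = 2 ∧ Odd w) ∨ T.IsDegenerate S Λ)

/-- `T_ℓ` and `T'_ℓ` are isomorphic for all `ℓ` in `Λ`. -/
def IsomorphicOn (Λ : Set ℕ) (T T' : IntegralSystem n) : Prop :=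
  ∀ (ℓ : ℕ) [Fact ℓ.Prime], ℓ ∈ Λ → ∃ A : GL (Fin n) ℤ_[ℓ], ∀ g : GQ, T'.rho ℓ g = A * T.rho ℓ g * A⁻¹

/-- The lattices `L` and `L'` are proportional on `Λ`: for a rational number `c > 0`, `c L'_ℓ = L_ℓ`
for all `ℓ` in `Λ`. -/
def ProportionalOn (Λ : Set ℕ)
    (L L' : ∀ (ℓ : ℕ) [Fact ℓ.Prime], Submodule ℤ_[ℓ] (Fin n → ℚ_[ℓ])) : Prop :=
  ∃ c : ℚ, 0 < c ∧ ∀ (ℓ : ℕ) [Fact ℓ.Prime], ℓ ∈ Λ → ∀ v : Fin n → ℚ_[ℓ],
    v ∈ L' ℓ ↔ (c : ℚ_[ℓ]) • v ∈ L ℓ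

section

variable {S : Finset ℕ} {w : ℕ} {T : IntegralSystem n}

theorem PureSystem.monic (hT : T.PureSystem S w) (p : ℕ) (hp : p.Prime) (hpS : p ∉ S) :
    (T.poly p).Monic := (hT.good p hp hpS).monic

theorem PureSystem.pure (hT : T.PureSystem S w) (p : ℕ) (hp : p.Prime) (hpS : p ∉ S) :
    ∀ z : ℂ, z ∈ (T.poly p).aroots ℂ → ‖z‖ ^ 2 = (p : ℝ) ^ w := (hT.good p hp hpS).pure

theorem PureSystem.unramified (hT : T.PureSystem S w) (p : ℕ) (hp : p.Prime) (hpS : p ∉ S)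
    (ℓ : ℕ) [Fact ℓ.Prime] (hℓ : ℓ ≠ p) (P : Ideal ZBar) (hP : P.IsMaximal)
    (hpP : (p : ZBar) ∈ P) (τ : GQ) (hτ : InInertia P τ) : T.rho ℓ τ = 1 :=
  (hT.good p hp hpS).unramified ℓ hℓ P hP hpP τ hτ

theorem PureSystem.frobenius (hT : T.PureSystem S w) (p : ℕ) (hp : p.Prime) (hpS : p ∉ S)
    (ℓ : ℕ) [Fact ℓ.Prime] (hℓ : ℓ ≠ p) (P : Ideal ZBar) (hP : P.IsMaximal)
    (hpP : (p : ZBar) ∈ P) (σ : GQ) (hσ : IsGeomFrob p P σ) :
    (T.rho ℓ σ : Matrix (Fin n) (Fin n) ℤ_[ℓ]).charpoly =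
      (T.poly p).map (Int.castRingHom ℤ_[ℓ]) :=
  (hT.good p hp hpS).frobenius ℓ hℓ P hP hpP σ hσ

end

end IntegralSystem

end Pool.Agent.Y126.SH
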