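import Pool.Agent.Y126.MD.Defs
import Pool.Agent.Y800.Frob2
import Pool.Agent.Y800.Falt
import Pool.Agent.Y800.Diag

/-!
# Finitely many Frobenius traces determine all traces, and finiteness of the traces
-/

set_option autoImplicit false

namespace Pool.Agent.Y126.MD

open Module Matrix Polynomial Pool.Agent.Y800 Pool.Agent.Y126.SH

variable {n : ℕ}

theorem charpoly_frob_rat {S : Finset ℕ} {w : ℕ} {T : IntegralSystem n} (hT : T.PureSystem S w)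
    {p : ℕ} (hp : p.Prime) (hpS : p ∉ S) {ℓ : ℕ} [Fact ℓ.Prime] (hℓ : ℓ ≠ p) {P : Ideal ZBar}
    (hP : P.IsMaximal) (hpP : (p : ZBar) ∈ P) {σ : GQ} (hσ : IsGeomFrob p P σ) :
    (T.rat ℓ σ : Matrix (Fin n) (Fin n) ℚ_[ℓ]).charpoly = (T.poly p).map (Int.castRingHom ℚ_[ℓ]) := by
  show ((T.rho ℓ σ : Matrix (Fin n) (Fin n) ℤ_[ℓ]).map (algebraMap ℤ_[ℓ] ℚ_[ℓ])).charpoly = _
  rw [Matrix.charpoly_map, hT.frobenius p hp hpS ℓ hℓ P hP hpP σ hσ, Polynomial.map_map]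
  congr 1

theorem trace_frob_rat (hn : 0 < n) {S : Finset ℕ} {w : ℕ} {T : IntegralSystem n} (hT : T.PureSystem S w)
    {p : ℕ} (hp : p.Prime) (hpS : p ∉ S) {ℓ : ℕ} [Fact ℓ.Prime] (hℓ : ℓ ≠ p) {P : Ideal ZBar}
    (hP : P.IsMaximal) (hpP : (p : ZBar) ∈ P) {σ : GQ} (hσ : IsGeomFrob p P σ) :
    (T.rat ℓ σ : Matrix (Fin n) (Fin n) ℚ_[ℓ]).trace = -(((T.poly p).coeff (n - 1) : ℤ) : ℚ_[ℓ]) := by
  have : Nonempty (Fin n) := ⟨⟨0, hn⟩⟩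
  rw [Matrix.trace_eq_neg_charpoly_coeff, charpoly_frob_rat hT hp hpS hℓ hP hpP hσ,
    Fintype.card_fin, Polynomial.coeff_map]
  rfl

theorem continuous_trace_rat {S : Finset ℕ} {w : ℕ} {T : IntegralSystem n} (hT : T.PureSystem S w)
    (ℓ : ℕ) [Fact ℓ.Prime] :
    Continuous fun g => (T.rat ℓ g : Matrix (Fin n) (Fin n) ℚ_[ℓ]).trace := by
  have h1 : (fun g => (T.rat ℓ g : Matrix (Fin n) (Fin n) ℚ_[ℓ]).trace) =
      fun g => (((T.rho ℓ g : Matrix (Fin n) (Fin n) ℤ_[ℓ]).trace : ℤ_[ℓ]) : ℚ_[ℓ]) := by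
    funext g
    show ((T.rho ℓ g : Matrix (Fin n) (Fin n) ℤ_[ℓ]).map (algebraMap ℤ_[ℓ] ℚ_[ℓ])).trace = _
    rw [← AddMonoidHom.map_trace (algebraMap ℤ_[ℓ] ℚ_[ℓ])]
    rfl
  rw [h1]
  exact continuous_subtype_val.comp (hT.continuous ℓ).matrix_trace

/-- a finite set of primes determines everything -/
theorem traces_of_finite (hn : 0 < n) (S : Finset ℕ) : ∃ 𝒯 : Finset ℕ,
    (∀ p ∈ 𝒯, p.Prime ∧ p ∉ S) ∧
      ∀ (w w' : ℕ) (T T' : IntegralSystem n), T.PureSystem S w → T'.PureSystem S w' →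
        (∀ p ∈ 𝒯, (T.poly p).coeff (n - 1) = (T'.poly p).coeff (n - 1)) →
        ∀ (ℓ : ℕ) [Fact ℓ.Prime] (g : GQ), (T.rat ℓ g : Matrix (Fin n) (Fin n) ℚ_[ℓ]).trace =
          (T'.rat ℓ g : Matrix (Fin n) (Fin n) ℚ_[ℓ]).trace := by
  classical
  have : Fact (Nat.Prime 2) := ⟨Nat.prime_two⟩
  let S1 : Finset ℕ := S.filter Nat.Prime ∪ {2}
  have hS1 : ∀ p ∈ S1, p.Prime := by
    intro p hp
    rcases Finset.mem_union.1 hp with h | h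
    · exact (Finset.mem_filter.1 h).2
    · rw [Finset.mem_singleton.1 h]
      exact Nat.prime_two
  have hS1' : ∀ p : ℕ, p.Prime → p ∉ S1 → p ∉ S ∧ 2 ≠ p := by
    intro p hp hpS
    refine ⟨fun h => hpS (Finset.mem_union_left _ (Finset.mem_filter.2 ⟨h, hp⟩)), ?_⟩
    rintro rfl
    exact hpS (Finset.mem_union_right _ (Finset.mem_singleton_self 2))
  let A : Type := Matrix (Fin n) (Fin n) ℚ_[2] × Matrix (Fin n) (Fin n) ℚ_[2]
  let D : ℕ := (2 ^ (2 * finrank ℚ_[2] A * finrank ℚ_[2] (⊤ : Submodule ℚ_[2] ℚ_[2]))) ^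
    (2 ^ (2 * finrank ℚ_[2] A * finrank ℚ_[2] (⊤ : Submodule ℚ_[2] ℚ_[2])))
  obtain ⟨𝒯, h𝒯, hD⟩ := exists_prime_set S1 hS1 S1 D
  refine ⟨𝒯, fun p hp => ⟨(h𝒯 p hp).1, (hS1' p (h𝒯 p hp).1 (h𝒯 p hp).2).1⟩, ?_⟩
  intro w w' T T' hT hT' heq
  let τ₁ : A →ₗ[ℚ_[2]] ℚ_[2] :=
    (Matrix.traceLinearMap (Fin n) ℚ_[2] ℚ_[2]) ∘ₗ LinearMap.fst ℚ_[2] _ _
  let τ₂ : A →ₗ[ℚ_[2]] ℚ_[2] :=
    (Matrix.traceLinearMap (Fin n) ℚ_[2] ℚ_[2]) ∘ₗ LinearMap.snd ℚ_[2] _ _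
  let r : GQ →* A := MonoidHom.prod ((Units.coeHom _).comp (T.rat 2)) ((Units.coeHom _).comp (T'.rat 2))
  have hr : ∀ g, r g = ((T.rat 2 g : Matrix (Fin n) (Fin n) ℚ_[2]),
    (T'.rat 2 g : Matrix (Fin n) (Fin n) ℚ_[2])) := fun g => rfl
  obtain ⟨H, hHn, hHo, hHi, hHker, hH⟩ := falt_core (ℓ := 2) (k := ℚ_[2]) r τ₁ τ₂
    (fun x y => Matrix.trace_mul_comm x.1 y.1) (fun x y => Matrix.trace_mul_comm x.2 y.2)
    (continuous_trace_rat hT 2) (continuous_trace_rat hT' 2) ⊤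
    (fun g => Submodule.mem_top) (fun g => Submodule.mem_top)
  have htr2 : ∀ g, τ₁ (r g) = τ₂ (r g) := by
    refine hH {x | ∃ p ∈ 𝒯, ∃ P : Ideal ZBar, P.IsMaximal ∧ (p : ZBar) ∈ P ∧ ∃ σ : GQ,
      IsGeomFrob p P σ ∧ ∃ τ : GQ, τ * σ * τ⁻¹ = x} ?_ ?_
    · intro g
      have hin : ∀ p : ℕ, p.Prime → p ∉ S1 → ∀ P : Ideal ZBar, P.IsMaximal → (p : ZBar) ∈ P →
          ∀ τ : GQ, InInertia P τ → τ ∈ H := by
        intro p hp hpS P hP hpP τ hτ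
        obtain ⟨h1, h2⟩ := hS1' p hp hpS
        apply hHker
        rw [hr]
        have h3 : T.rat 2 τ = 1 := by
          show (Matrix.GeneralLinearGroup.map (algebraMap ℤ_[2] ℚ_[2])) (T.rho 2 τ) = 1
          rw [hT.unramified p hp h1 2 h2 P hP hpP τ hτ, map_one]
        have h4 : T'.rat 2 τ = 1 := by
          show (Matrix.GeneralLinearGroup.map (algebraMap ℤ_[2] ℚ_[2])) (T'.rho 2 τ) = 1
          rw [hT'.unramified p hp h1 2 h2 P hP hpP τ hτ, map_one]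
        rw [h3, h4]
        rfl
      obtain ⟨p, hp, P, hP, hpP, σ, hσ, τ, hτ⟩ := hD H hHn hHo hHi hin g
      exact ⟨τ * σ * τ⁻¹, ⟨p, hp, P, hP, hpP, σ, hσ, τ, rfl⟩, hτ⟩
    · rintro x ⟨p, hp, P, hP, hpP, σ, hσ, τ, rfl⟩
      obtain ⟨h1, h2⟩ := hS1' p (h𝒯 p hp).1 (h𝒯 p hp).2
      have h3 : r (τ * σ * τ⁻¹) = r τ * r σ * r τ⁻¹ := by rw [map_mul, map_mul]
      have h4 : r τ⁻¹ * r τ = 1 := by rw [← map_mul, inv_mul_cancel, map_one]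
      have h5 : τ₁ (r (τ * σ * τ⁻¹)) = τ₁ (r σ) := by
        rw [h3]
        show Matrix.trace ((r τ * r σ) * r τ⁻¹).1 = Matrix.trace (r σ).1
        rw [Prod.fst_mul, Matrix.trace_mul_comm, ← Prod.fst_mul, ← mul_assoc, h4, one_mul]
      have h6 : τ₂ (r (τ * σ * τ⁻¹)) = τ₂ (r σ) := by
        rw [h3]
        show Matrix.trace ((r τ * r σ) * r τ⁻¹).2 = Matrix.trace (r σ).2
        rw [Prod.snd_mul, Matrix.trace_mul_comm, ← Prod.snd_mul, ← mul_assoc, h4, one_mul]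
      rw [h5, h6]
      show (T.rat 2 σ : Matrix (Fin n) (Fin n) ℚ_[2]).trace =
        (T'.rat 2 σ : Matrix (Fin n) (Fin n) ℚ_[2]).trace
      rw [trace_frob_rat hn hT (h𝒯 p hp).1 h1 h2 hP hpP hσ,
        trace_frob_rat hn hT' (h𝒯 p hp).1 h1 h2 hP hpP hσ, heq p hp]
  -- the Frobenius polynomials agree
  have hpoly : ∀ p : ℕ, p.Prime → p ∉ S1 → T.poly p = T'.poly p := by
    intro p hp hpS
    obtain ⟨h1, h2⟩ := hS1' p hp hpS
    obtain ⟨P, σ, hP, hpP, hσ⟩ := exists_geom hp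
    have h3 := charpoly_of_traces (T.rat 2) (T'.rat 2) htr2 σ
    rw [charpoly_frob_rat hT hp h1 h2 hP hpP hσ, charpoly_frob_rat hT' hp h1 h2 hP hpP hσ] at h3
    exact Polynomial.map_injective _ (RingHom.injective_int (Int.castRingHom ℚ_[2])) h3
  intro ℓ _ g
  have hclosed : IsClosed {g : GQ | (T.rat ℓ g : Matrix (Fin n) (Fin n) ℚ_[ℓ]).trace =
      (T'.rat ℓ g : Matrix (Fin n) (Fin n) ℚ_[ℓ]).trace} :=
    isClosed_eq (continuous_trace_rat hT ℓ) (continuous_trace_rat hT' ℓ)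
  have hconj : ∀ (R : IntegralSystem n) (σ τ : GQ),
      (R.rat ℓ (τ * σ * τ⁻¹) : Matrix (Fin n) (Fin n) ℚ_[ℓ]).trace =
        (R.rat ℓ σ : Matrix (Fin n) (Fin n) ℚ_[ℓ]).trace := by
    intro R σ τ
    rw [map_mul, map_mul, Units.val_mul, Matrix.trace_mul_comm, ← Units.val_mul, ← mul_assoc,
      ← map_mul, inv_mul_cancel, map_one, one_mul]
  refine closed_univ _ hclosed ?_ (S1 ∪ {ℓ}) ?_ g
  · intro σ hσ τ
    show (T.rat ℓ (τ * σ * τ⁻¹) : Matrix (Fin n) (Fin n) ℚ_[ℓ]).trace =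
      (T'.rat ℓ (τ * σ * τ⁻¹) : Matrix (Fin n) (Fin n) ℚ_[ℓ]).trace
    rw [hconj, hconj]
    exact hσ
  · intro p hp hpS P hP hpP σ hσ
    have h0 : p ∉ S1 := fun h => hpS (Finset.mem_union_left _ h)
    have hℓp : ℓ ≠ p := fun h => hpS (Finset.mem_union_right _ (Finset.mem_singleton.2 h.symm))
    obtain ⟨h1, h2⟩ := hS1' p hp h0
    show (T.rat ℓ σ : Matrix (Fin n) (Fin n) ℚ_[ℓ]).trace =
      (T'.rat ℓ σ : Matrix (Fin n) (Fin n) ℚ_[ℓ]).trace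
    rw [trace_frob_rat hn hT hp h1 hℓp hP hpP hσ, trace_frob_rat hn hT' hp h1 hℓp hP hpP hσ,
      hpoly p hp h0]

/-- the coefficients of the Frobenius polynomials are bounded -/
theorem coeff_bound {S : Finset ℕ} {w : ℕ} {T : IntegralSystem n} (hT : T.PureSystem S w)
    {p : ℕ} (hp : p.Prime) (hpS : p ∉ S) (i : ℕ) :
    |(T.poly p).coeff i| ≤ ((p ^ w) ^ n * n.choose (n / 2) : ℕ) := by
  -- the degree
  have hdeg : (T.poly p).natDegree ≤ n := by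
    obtain ⟨P, σ, hP, hpP, hσ⟩ := exists_geom hp
    obtain ⟨ℓ, hℓp, hℓ⟩ := Nat.exists_infinite_primes (p + 1)
    have : Fact ℓ.Prime := ⟨hℓ⟩
    have h1 := charpoly_frob_rat hT hp hpS (ℓ := ℓ) (by omega) hP hpP hσ
    have h2 := congrArg Polynomial.natDegree h1
    rw [Matrix.charpoly_natDegree_eq_dim, Fintype.card_fin,
      Polynomial.natDegree_map_eq_of_injective (RingHom.injective_int (Int.castRingHom ℚ_[ℓ]))] at h2
    exact h2.symm.le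
  have h1 := Polynomial.coeff_bdd_of_roots_le (B := (p : ℝ) ^ w) (d := n) (algebraMap ℤ ℂ)
    (hT.monic p hp hpS) (IsAlgClosed.splits _) hdeg ?_ i
  · have h2 : (1 : ℝ) ≤ (p : ℝ) ^ w := one_le_pow₀ (by exact_mod_cast hp.one_lt.le)
    rw [max_eq_left h2, Polynomial.coeff_map] at h1
    have h3 : ‖(algebraMap ℤ ℂ) ((T.poly p).coeff i)‖ = (|(T.poly p).coeff i| : ℤ) := by
      rw [eq_intCast, Complex.norm_intCast]
      push_cast
      rfl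
    rw [h3] at h1
    exact_mod_cast h1
  · intro z hz
    have h2 := hT.pure p hp hpS z hz
    have h3 : (1 : ℝ) ≤ (p : ℝ) ^ w := one_le_pow₀ (by exact_mod_cast hp.one_lt.le)
    nlinarith [norm_nonneg z, sq_nonneg (‖z‖ - 1)]

end Pool.Agent.Y126.MD
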