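import Pool.Agent.Y126.MD.Irr
import Pool.Agent.Y126.SH.Inst

/-!
# The rational and the residual representations are irreducible
-/

set_option autoImplicit false

namespace Pool.Agent.Y126.MD

open Module Polynomial Pool.Agent.Y800 Pool.Agent.Y126.SH

section

variable {n : ℕ} {S : Finset ℕ} {w : ℕ} {T : IntegralSystem n} {ℓ : ℕ} [hℓ : Fact ℓ.Prime]

theorem mink_rat (hT : T.PureSystem S w) : Mink (algebraMap ℤ_[ℓ] ℚ_[ℓ]) T := by
  intro U hU a h g
  have h1 := eq_one_padic (ℓ := ℓ) (detChar (rep (algebraMap ℤ_[ℓ] ℚ_[ℓ]) T) U hU *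
    (chik (algebraMap ℤ_[ℓ] ℚ_[ℓ])) ^ a) ?_ ?_ g
  · have h2 := congrArg (Units.val) h1
    exact h2
  · have c1 : Continuous fun g => (chik (algebraMap ℤ_[ℓ] ℚ_[ℓ]) g : ℚ_[ℓ]) := by
      have c0 : Continuous fun g => (chi ℓ g : ℤ_[ℓ]) :=
        Units.continuous_val.comp (continuous_chi ℓ)
      have : Continuous fun g => ((chi ℓ g : ℤ_[ℓ]) : ℚ_[ℓ]) := continuous_subtype_val.comp c0
      exact this
    have c2 : Continuous fun g => (detChar (rep (algebraMap ℤ_[ℓ] ℚ_[ℓ]) T) U hU g : ℚ_[ℓ]) := by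
      apply Pool.Agent.Y142.continuous_detRep
      intro f x
      have c3 : Continuous fun g => (lin (rep (algebraMap ℤ_[ℓ] ℚ_[ℓ]) T) g) x := by
        have c4 : Continuous fun g => (rep (algebraMap ℤ_[ℓ] ℚ_[ℓ]) T g :
            Matrix (Fin n) (Fin n) ℚ_[ℓ]) := by
          have : Continuous fun g => (T.rho ℓ g : Matrix (Fin n) (Fin n) ℤ_[ℓ]).map
              (fun z : ℤ_[ℓ] => (z : ℚ_[ℓ])) :=
            (hT.continuous ℓ).matrix_map continuous_subtype_val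
          exact this
        have : Continuous fun g => (rep (algebraMap ℤ_[ℓ] ℚ_[ℓ]) T g :
            Matrix (Fin n) (Fin n) ℚ_[ℓ]).mulVec x := c4.matrix_mulVec continuous_const
        exact this
      exact (LinearMap.continuous_of_finiteDimensional f).comp c3
    exact c2.mul (c1.pow a)
  · intro P hP τ hτ
    apply Units.ext
    exact h P hP τ hτ

theorem isOpen_res (hT : T.PureSystem S w) : IsOpen (((T.res ℓ).ker : Subgroup GQ) : Set GQ) := by
  have h1 : (((T.res ℓ).ker : Subgroup GQ) : Set GQ) = ⋂ i, ⋂ j,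
      (fun g => (T.rho ℓ g : Matrix (Fin n) (Fin n) ℤ_[ℓ]) i j) ⁻¹'
        {x : ℤ_[ℓ] | PadicInt.toZMod x = (1 : Matrix (Fin n) (Fin n) (ZMod ℓ)) i j} := by
    ext g
    simp only [SetLike.mem_coe, MonoidHom.mem_ker, Set.mem_iInter, Set.mem_preimage]
    constructor
    · intro hg i j
      have h2 := congrArg (fun u : GL (Fin n) (ZMod ℓ) => (u : Matrix (Fin n) (Fin n) (ZMod ℓ)) i j) hg
      exact h2
    · intro hg
      apply Units.ext
      ext i j
      exact hg i j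
  rw [h1]
  refine isOpen_iInter_of_finite fun i => isOpen_iInter_of_finite fun j => ?_
  refine (isOpen_zmod _).preimage ?_
  exact (continuous_apply j).comp ((continuous_apply i).comp (hT.continuous ℓ))

theorem mink_res (hT : T.PureSystem S w) : Mink (PadicInt.toZMod (p := ℓ)) T := by
  intro U hU a h g
  have hopen : IsOpen ((((T.res ℓ).ker ⊓ (chik (PadicInt.toZMod (p := ℓ))).ker : Subgroup GQ)) :
      Set GQ) := by
    rw [Subgroup.coe_inf]
    refine (isOpen_res hT).inter ?_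
    have h1 : ((chik (PadicInt.toZMod (p := ℓ))).ker : Set GQ) =
        (fun g => (chi ℓ g : ℤ_[ℓ])) ⁻¹' {x : ℤ_[ℓ] | PadicInt.toZMod x = 1} := by
      ext g
      simp only [SetLike.mem_coe, MonoidHom.mem_ker, Set.mem_preimage]
      constructor
      · intro hg
        exact congrArg Units.val hg
      · intro hg
        apply Units.ext
        exact hg
    rw [h1]
    exact (isOpen_zmod 1).preimage (Units.continuous_val.comp (continuous_chi ℓ))
  have h1 := eq_one_disc (detChar (rep (PadicInt.toZMod (p := ℓ)) T) U hU *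
    (chik (PadicInt.toZMod (p := ℓ))) ^ a) _ hopen ?_ ?_ g
  · exact congrArg (Units.val) h1
  · intro g hg
    obtain ⟨hg1, hg2⟩ := hg
    have hg1' : rep (PadicInt.toZMod (p := ℓ)) T g = 1 := hg1
    have hg2' : chik (PadicInt.toZMod (p := ℓ)) g = 1 := hg2
    rw [MonoidHom.mul_apply, MonoidHom.pow_apply, hg2', one_pow, mul_one]
    apply Units.ext
    rw [detChar_val, Units.val_one]
    apply det_unip
    have : (Matrix.toLin' (rep (PadicInt.toZMod (p := ℓ)) T g : Matrix (Fin n) (Fin n) (ZMod ℓ))).restrict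
        (hU g) = 1 := by
      apply LinearMap.ext
      intro x
      apply Subtype.ext
      show (Matrix.toLin' (rep (PadicInt.toZMod (p := ℓ)) T g : Matrix (Fin n) (Fin n) (ZMod ℓ))) x.1 = x.1
      rw [hg1', Units.val_one, Matrix.toLin'_one]
      rfl
    refine ⟨1, ?_⟩
    rw [this, pow_one]
    exact sub_self (1 : End (ZMod ℓ) U)
  · intro P hP τ hτ
    apply Units.ext
    exact h P hP τ hτ

/-- a prime outside of `S` and different from `ℓ` -/
theorem exists_good (S : Finset ℕ) (ℓ : ℕ) : ∃ q : ℕ, q.Prime ∧ q ∉ S ∧ ℓ ≠ q := by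
  obtain ⟨q, hq, hqp⟩ := Nat.exists_infinite_primes (max (S.sup id) ℓ + 1)
  refine ⟨q, hqp, fun h => ?_, by omega⟩
  have : q ≤ S.sup id := Finset.le_sup (f := id) h
  omega

theorem small_case {k : Type} [Field k] (h : n = 1 ∨ (n = 2 ∧ Odd w))
    (U : Submodule k (Fin n → k)) (hwt : ∃ a : ℕ, a * 2 = w * finrank k U) : U = ⊥ ∨ U = ⊤ := by
  obtain ⟨a, ha⟩ := hwt
  have hdim : finrank k (Fin n → k) = n := finrank_fin_fun k
  have hle := Submodule.finrank_le U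
  rw [hdim] at hle
  have h0 : finrank k U = 0 → U = ⊥ := fun h => Submodule.finrank_eq_zero.1 h
  have h1 : finrank k U = n → U = ⊤ := fun h => Submodule.eq_top_of_finrank_eq (by rw [hdim, h])
  rcases h with rfl | ⟨rfl, hw⟩
  · interval_cases h2 : finrank k U
    · exact Or.inl (h0 rfl)
    · exact Or.inr (h1 rfl)
  · interval_cases h2 : finrank k U
    · exact Or.inl (h0 rfl)
    · exfalso
      obtain ⟨b, hb⟩ := hw
      omega
    · exact Or.inr (h1 rfl)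

/-- **All rational representations are irreducible.** -/
theorem rat_irr (hn : 0 < n) {Λ : Set ℕ} (hT : T.InClass S w Λ) (hΛ : ℓ ∈ Λ)
    (U : Submodule ℚ_[ℓ] (Fin n → ℚ_[ℓ])) (hU : IsStable (T.rat ℓ) U) : U = ⊥ ∨ U = ⊤ := by
  obtain ⟨hP, hcl⟩ := hT
  obtain ⟨q, hq, hqS, hqℓ⟩ := exists_good S ℓ
  obtain ⟨c, hc⟩ := hP.weights ℓ
  obtain ⟨M, hM0, hM⟩ := wt_transfer (hP.monic q hq hqS) hq.one_lt (hP.pure q hq hqS) c
  have hwt := fun U hU => weight_sub (algebraMap ℤ_[ℓ] ℚ_[ℓ]) hP hc (mink_rat hP) hq hqS hqℓ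
    (M := M) (by exact_mod_cast hM0) hM U hU
  have hsmall : (n = 1 ∨ (n = 2 ∧ Odd w)) → U = ⊥ ∨ U = ⊤ := by
    intro h
    obtain ⟨a, ha, _⟩ := hwt U hU
    exact small_case h U ⟨a, ha⟩
  rcases hcl with h | h | h
  · exact hsmall (Or.inl h)
  · exact hsmall (Or.inr h)
  · obtain ⟨p, hpS, hp, hpℓ, hdeg⟩ := h.rational ℓ hΛ
    refine irr_block (algebraMap ℤ_[ℓ] ℚ_[ℓ]) hn hp hpℓ hdeg ?_ hwt U hU
    intro e he _ h1
    have h2 : p ^ e = 1 := by exact_mod_cast h1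
    exact absurd h2 (Nat.one_lt_pow he.ne' hp.one_lt).ne'

end

/-- **Almost all residual representations are irreducible.** -/
theorem res_irr {n : ℕ} (hn : 0 < n) {S : Finset ℕ} {w : ℕ} {Λ : Set ℕ} {T : IntegralSystem n}
    (hT : T.InClass S w Λ) : ∃ N : ℕ, ∀ (ℓ : ℕ) [Fact ℓ.Prime], ℓ ∈ Λ → N < ℓ →
      ∀ U : Submodule (ZMod ℓ) (Fin n → ZMod ℓ), IsStable (T.res ℓ) U → U = ⊥ ∨ U = ⊤ := by
  obtain ⟨hP, hcl⟩ := hT
  obtain ⟨q, hq, hqS, _⟩ := exists_good S 0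
  obtain ⟨N₂, hN₂⟩ := hP.residualWeights
  obtain ⟨M, hM0, hM⟩ := wt_transfer (hP.monic q hq hqS) hq.one_lt (hP.pure q hq hqS) (w * n)
  obtain ⟨N₃, hN₃⟩ : ∃ N₃ : ℕ, T.IsDegenerate S Λ → ∀ (ℓ : ℕ) [Fact ℓ.Prime], ℓ ∈ Λ → N₃ < ℓ →
      ∃ p ∈ S, p.Prime ∧ ℓ ≠ p ∧ OneBlockAt (T.res ℓ) p := by
    by_cases h : T.IsDegenerate S Λ
    · obtain ⟨N, hN⟩ := h.residual
      exact ⟨N, fun _ => hN⟩
    · exact ⟨0, fun h' => absurd h' h⟩
  refine ⟨max (max N₂ N₃) (max (max q M.natAbs) (S.sup fun p => p ^ (n ^ 3))), ?_⟩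
  intro ℓ hℓ hΛ hlt U hU
  simp only [max_lt_iff] at hlt
  obtain ⟨⟨h2, h3⟩, ⟨h4, h5⟩, h6⟩ := hlt
  have hMk : (M : ZMod ℓ) ≠ 0 := by
    intro h0
    rw [ZMod.intCast_zmod_eq_zero_iff_dvd] at h0
    have h7 := Int.le_of_dvd (by positivity : (0 : ℤ) < |M|) ((dvd_abs _ _).2 h0)
    rw [Int.abs_eq_natAbs] at h7
    omega
  have hwt := fun U hU => weight_sub (PadicInt.toZMod (p := ℓ)) hP (hN₂ ℓ h2) (mink_res hP) hq hqS
    (by omega) (M := M) hMk hM U hU
  have hsmall : (n = 1 ∨ (n = 2 ∧ Odd w)) → U = ⊥ ∨ U = ⊤ := by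
    intro h
    obtain ⟨a, ha, _⟩ := hwt U hU
    exact small_case h U ⟨a, ha⟩
  rcases hcl with h | h | h
  · exact hsmall (Or.inl h)
  · exact hsmall (Or.inr h)
  · obtain ⟨p, hpS, hp, hpℓ, hdeg⟩ := hN₃ h ℓ hΛ h3
    refine irr_block (PadicInt.toZMod (p := ℓ)) hn hp hpℓ hdeg ?_ hwt U hU
    intro e he hen h1
    have h7 : p ^ (n ^ 3) < ℓ :=
      lt_of_le_of_lt (Finset.le_sup (f := fun p => p ^ (n ^ 3)) hpS) h6
    have h8 : p ^ e ≤ p ^ (n ^ 3) := Nat.pow_le_pow_right hp.pos hen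
    have h9 : 1 < p ^ e := Nat.one_lt_pow he.ne' hp.one_lt
    have h10 : ((p ^ e : ℕ) : ZMod ℓ) = ((1 : ℕ) : ZMod ℓ) := by
      rw [Nat.cast_pow, Nat.cast_one]
      exact h1
    rw [ZMod.natCast_eq_natCast_iff'] at h10
    rw [Nat.mod_eq_of_lt (by omega), Nat.mod_eq_of_lt (by omega)] at h10
    omega

end Pool.Agent.Y126.MD
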