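import Mathlib

/-!
# Endomorphisms which normalise a unipotent element with one Jordan block
-/

set_option autoImplicit false

namespace Pool.Agent.Y126.MD

open Module Finset

variable {K : Type*} [Field K] {V : Type*} [AddCommGroup V] [Module K V] [FiniteDimensional K V]

theorem pow_top {N : End K V} (hN : IsNilpotent N) : N ^ finrank K V = 0 := by
  have h1 := LinearMap.aeval_self_charpoly N
  rw [hN.charpoly_eq_X_pow_finrank, map_pow, Polynomial.aeval_X] at h1
  exact h1

/-- the cyclic basis -/
theorem exists_cyc {N : End K V} (hN : IsNilpotent N) {D : ℕ} (hdim : finrank K V = D + 1) {v : V}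
    (hv : (N ^ D) v ≠ 0) : ∃ b : Basis (Fin (D + 1)) K V, ∀ i, b i = (N ^ (i : ℕ)) v := by
  have h0 : N ^ (D + 1) = 0 := by rw [← hdim]; exact pow_top hN
  have h1 : LinearIndependent K fun i : Fin (D + 1) => (N ^ (i : ℕ)) v := by
    rw [Fintype.linearIndependent_iff]
    intro c hc
    have key : ∀ n, ∀ i : Fin (D + 1), (i : ℕ) = n → c i = 0 := by
      intro n
      induction n using Nat.strong_induction_on with
      | _ n ih =>
        intro i hi
        have h2 := congrArg (N ^ (D - n)) hc
        rw [map_sum, map_zero, Finset.sum_eq_single i] at h2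
        · rw [map_smul, ← Module.End.mul_apply, ← pow_add, hi,
            Nat.sub_add_cancel (by omega)] at h2
          exact (smul_eq_zero.1 h2).resolve_right hv
        · intro j _ hj
          rw [map_smul]
          rcases lt_trichotomy (j : ℕ) n with h3 | h3 | h3
          · rw [ih _ h3 j rfl, zero_smul]
          · exact absurd (Fin.ext (h3.trans hi.symm)) hj
          · rw [← Module.End.mul_apply, ← pow_add]
            obtain ⟨r, hr⟩ : ∃ r, D - n + (j : ℕ) = (D + 1) + r :=
              ⟨D - n + (j : ℕ) - (D + 1), by omega⟩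
            rw [hr, pow_add, h0, zero_mul, LinearMap.zero_apply, smul_zero]
        · intro h3
          exact absurd (mem_univ _) h3
    exact fun i => key _ i rfl
  refine ⟨basisOfLinearIndependentOfCardEqFinrank h1 (by rw [Fintype.card_fin, hdim]), fun i => ?_⟩
  rw [coe_basisOfLinearIndependentOfCardEqFinrank]

omit [FiniteDimensional K V] in
/-- the coordinates of the powers -/
theorem coord_pow {N : End K V} {D : ℕ} (h0 : N ^ (D + 1) = 0) {v : V}
    (b : Basis (Fin (D + 1)) K V) (hb : ∀ i, b i = (N ^ (i : ℕ)) v) (j : ℕ)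
    (i k : Fin (D + 1)) (hk : (k : ℕ) = i + j) (x : V) :
    b.repr ((N ^ j) x) k = b.repr x i := by
  have h1 : (b.coord k) ∘ₗ (N ^ j) = b.coord i := by
    refine b.ext fun l => ?_
    rw [LinearMap.comp_apply, hb l, ← Module.End.mul_apply, ← pow_add, Basis.coord_apply,
      Basis.coord_apply, ← hb l, b.repr_self]
    by_cases hl : j + (l : ℕ) < D + 1
    · have h2 : (N ^ (j + (l : ℕ))) v = b ⟨j + (l : ℕ), hl⟩ := (hb ⟨j + (l : ℕ), hl⟩).symm
      rw [h2, b.repr_self, Finsupp.single_apply, Finsupp.single_apply]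
      by_cases hli : l = i
      · rw [if_pos hli, if_pos]
        apply Fin.ext
        show j + (l : ℕ) = k
        rw [hk, hli]
        ring
      · rw [if_neg hli, if_neg]
        intro h3
        apply hli
        have h4 : j + (l : ℕ) = k := congrArg Fin.val h3
        apply Fin.ext
        omega
    · obtain ⟨r, hr⟩ : ∃ r, j + (l : ℕ) = (D + 1) + r := ⟨j + (l : ℕ) - (D + 1), by omega⟩
      rw [hr, pow_add, h0, zero_mul, LinearMap.zero_apply, map_zero, Finsupp.zero_apply,
        Finsupp.single_apply, if_neg]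
      rintro rfl
      have := k.2
      omega
  have h2 := LinearMap.congr_fun h1 x
  rw [LinearMap.comp_apply, Basis.coord_apply, Basis.coord_apply] at h2
  exact h2

/-- the kernel is one-dimensional -/
theorem ker_one {N : End K V} (hN : IsNilpotent N) {D : ℕ} (hdim : finrank K V = D + 1) {v : V}
    (hv : (N ^ D) v ≠ 0) {x : V} (hx : N x = 0) : ∃ c : K, x = c • (N ^ D) v := by
  obtain ⟨b, hb⟩ := exists_cyc hN hdim hv
  have h0 : N ^ (D + 1) = 0 := by rw [← hdim]; exact pow_top hN
  refine ⟨b.repr x (Fin.last D), ?_⟩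
  have h1 : ∀ i : Fin (D + 1), i ≠ Fin.last D → b.repr x i = 0 := by
    intro i hi
    have h2 : (i : ℕ) < D := lt_of_le_of_ne (Nat.lt_succ_iff.1 i.2) (fun h => hi (Fin.ext h))
    have h3 := coord_pow h0 b hb 1 i ⟨(i : ℕ) + 1, by omega⟩ rfl x
    rw [pow_one, hx, map_zero, Finsupp.zero_apply] at h3
    exact h3.symm
  conv_lhs => rw [← b.sum_repr x]
  rw [Finset.sum_eq_single (Fin.last D)]
  · rw [hb]
    rfl
  · intro i _ hi
    rw [h1 i hi, zero_smul]
  · intro h
    exact absurd (mem_univ _) h

/-- **The determinant.** -/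
theorem det_block {N F : End K V} (hN : IsNilpotent N) {D : ℕ} (hdim : finrank K V = D + 1) {v : V}
    (hv : (N ^ D) v ≠ 0) {p : ℕ} (hrel : (1 + N) * F = F * (1 + N) ^ p) :
    ∃ c : K, F ((N ^ D) v) = c • (N ^ D) v ∧
      LinearMap.det F = ∏ i : Fin (D + 1), c * (p : K) ^ (D - (i : ℕ)) := by
  obtain ⟨b, hb⟩ := exists_cyc hN hdim hv
  have h0 : N ^ (D + 1) = 0 := by rw [← hdim]; exact pow_top hN
  set Q : End K V := ∑ j ∈ range p, (1 + N) ^ j with hQ
  have hQN : (1 + N) ^ p - 1 = N * Q := by
    have h1 := mul_geom_sum (1 + N) p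
    rw [add_sub_cancel_left] at h1
    rw [← h1]
  have hcomm : Commute N Q := by
    apply Commute.sum_right
    intro j _
    exact ((Commute.one_right N).add_right (Commute.refl N)).pow_right j
  have hNF : N * F = F * (N * Q) := by
    rw [← hQN, mul_sub, mul_one, ← hrel, add_mul, one_mul, add_sub_cancel_left]
  have hNFj : ∀ j, N ^ j * F = F * (N ^ j * Q ^ j) := by
    intro j
    induction j with
    | zero => simp
    | succ j ih =>
      rw [pow_succ' N j, mul_assoc, ih, ← mul_assoc, hNF]
      rw [mul_assoc, mul_assoc]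
      congr 1
      rw [pow_succ' Q j, ← mul_assoc Q, ← (hcomm.pow_left j).eq]
      simp only [mul_assoc]
  have hNv : N ((N ^ D) v) = 0 := by
    rw [← Module.End.mul_apply, ← pow_succ', h0, LinearMap.zero_apply]
  have hQv : Q ((N ^ D) v) = (p : K) • (N ^ D) v := by
    have h1 : ∀ j : ℕ, ((1 + N) ^ j) ((N ^ D) v) = (N ^ D) v := by
      intro j
      induction j with
      | zero => simp
      | succ j ih =>
        rw [pow_succ, Module.End.mul_apply, LinearMap.add_apply, hNv, add_zero,
          Module.End.one_apply, ih]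
    rw [hQ, LinearMap.sum_apply, Finset.sum_congr rfl fun j _ => h1 j, Finset.sum_const,
      card_range, Nat.cast_smul_eq_nsmul]
  have hQj : ∀ j : ℕ, (Q ^ j) ((N ^ D) v) = ((p : K) ^ j) • (N ^ D) v := by
    intro j
    induction j with
    | zero => simp
    | succ j ih => rw [pow_succ, Module.End.mul_apply, hQv, map_smul, ih, smul_smul, pow_succ, mul_comm]
  obtain ⟨c, hc⟩ := ker_one hN hdim hv (x := F ((N ^ D) v)) (by
    rw [← Module.End.mul_apply, hNF, Module.End.mul_apply, hcomm.eq, Module.End.mul_apply, hNv,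
      map_zero, map_zero])
  refine ⟨c, hc, ?_⟩
  have key : ∀ i k : Fin (D + 1), (k : ℕ) ≤ i →
      b.repr (F (b i)) k = if k = i then c * (p : K) ^ (D - (i : ℕ)) else 0 := by
    intro i k hki
    have h1 := coord_pow h0 b hb (D - (i : ℕ)) k ⟨(k : ℕ) + (D - (i : ℕ)), by omega⟩ rfl (F (b i))
    rw [← h1, ← Module.End.mul_apply, hNFj, Module.End.mul_apply, hb i]
    have h2 : (N ^ (D - (i : ℕ)) * Q ^ (D - (i : ℕ))) ((N ^ (i : ℕ)) v) =
        ((p : K) ^ (D - (i : ℕ))) • (N ^ D) v := by
      rw [((hcomm.pow_left (D - (i : ℕ))).pow_right (D - (i : ℕ))).eq, Module.End.mul_apply,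
        ← Module.End.mul_apply (N ^ (D - (i : ℕ))), ← pow_add,
        Nat.sub_add_cancel (Nat.lt_succ_iff.1 i.2), hQj]
    have h3 : (N ^ D) v = b (Fin.last D) := (hb (Fin.last D)).symm
    rw [h2, map_smul, hc, h3, map_smul, map_smul, b.repr_self, Finsupp.smul_apply,
      Finsupp.smul_apply, Finsupp.single_apply, smul_eq_mul, smul_eq_mul]
    by_cases hki' : k = i
    · rw [if_pos hki', if_pos]
      · ring
      · apply Fin.ext
        show D = (k : ℕ) + (D - (i : ℕ))
        rw [hki']
        omega
    · rw [if_neg hki', if_neg]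
      · ring
      · intro h4
        have h5 : D = (k : ℕ) + (D - (i : ℕ)) := congrArg Fin.val h4
        apply hki'
        apply Fin.ext
        omega
  rw [← LinearMap.det_toMatrix b, Matrix.det_of_isLowerTriangular]
  · refine Finset.prod_congr rfl fun i _ => ?_
    rw [LinearMap.toMatrix_apply, key i i le_rfl, if_pos rfl]
  · intro i k hik
    have hik' : i < k := OrderDual.toDual_lt_toDual.1 hik
    rw [LinearMap.toMatrix_apply, key k i (le_of_lt hik'), if_neg (ne_of_lt hik')]

/-- kernels of powers -/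
theorem finrank_ker_pow {N : End K V} (h1 : finrank K (LinearMap.ker N) ≤ 1) (m : ℕ) :
    finrank K (LinearMap.ker (N ^ m)) ≤ m := by
  induction m with
  | zero =>
    have : LinearMap.ker (N ^ 0) = ⊥ := by
      rw [pow_zero]
      exact LinearMap.ker_eq_bot.2 fun x y h => h
    rw [this, finrank_bot]
  | succ m ih =>
    have hmaps : ∀ x ∈ LinearMap.ker (N ^ (m + 1)), (N ^ m) x ∈ LinearMap.ker N := by
      intro x hx
      rw [LinearMap.mem_ker, ← Module.End.mul_apply, ← pow_succ']
      exact hx
    let f : LinearMap.ker (N ^ (m + 1)) →ₗ[K] LinearMap.ker N := (N ^ m).restrict hmaps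
    have h2 := f.finrank_range_add_finrank_ker
    have h3 : finrank K (LinearMap.range f) ≤ 1 := (Submodule.finrank_le _).trans h1
    have h4 : finrank K (LinearMap.ker f) ≤ finrank K (LinearMap.ker (N ^ m)) := by
      let g : LinearMap.ker f →ₗ[K] LinearMap.ker (N ^ m) :=
        ((Submodule.subtype _) ∘ₗ (Submodule.subtype _)).codRestrict _ fun x => by
          rw [LinearMap.mem_ker]
          have h5 : f x.1 = 0 := x.2
          exact congrArg Subtype.val h5
      apply LinearMap.finrank_le_finrank_of_injective (f := g)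
      intro x y hxy
      have h5 := congrArg Subtype.val hxy
      exact Subtype.ext (Subtype.ext h5)
    omega

/-- **Stable subspaces.** -/
theorem det_sub {N F : End K V} (hN : IsNilpotent N) {D : ℕ} (hdim : finrank K V = D + 1) {v : V}
    (hv : (N ^ D) v ≠ 0) {p : ℕ} (hrel : (1 + N) * F = F * (1 + N) ^ p) {c : K}
    (hc : F ((N ^ D) v) = c • (N ^ D) v) {U : Submodule K V} (hUN : ∀ x ∈ U, N x ∈ U)
    (hUF : ∀ x ∈ U, F x ∈ U) {d : ℕ} (hd : finrank K U = d + 1) :
    LinearMap.det (F.restrict hUF) = ∏ i : Fin (d + 1), c * (p : K) ^ (d - (i : ℕ)) := by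
  have h0 : N ^ (D + 1) = 0 := by rw [← hdim]; exact pow_top hN
  have hker : finrank K (LinearMap.ker N) ≤ 1 := by
    have h1 : LinearMap.ker N ≤ Submodule.span K {(N ^ D) v} := by
      intro x hx
      obtain ⟨a, rfl⟩ := ker_one hN hdim hv (x := x) hx
      exact Submodule.smul_mem _ _ (Submodule.mem_span_singleton_self _)
    exact (Submodule.finrank_mono h1).trans (finrank_span_singleton hv).le
  let N' : End K U := N.restrict hUN
  let F' : End K U := F.restrict hUF
  have hpow : ∀ (j : ℕ) (x : U), ((N' ^ j) x : V) = (N ^ j) x := by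
    intro j x
    induction j generalizing x with
    | zero => simp
    | succ j ih => rw [pow_succ, Module.End.mul_apply, ih, pow_succ, Module.End.mul_apply]; rfl
  have hN' : IsNilpotent N' := by
    refine ⟨D + 1, ?_⟩
    apply LinearMap.ext
    intro x
    apply Subtype.ext
    rw [hpow, h0]
    rfl
  have hker' : finrank K (LinearMap.ker N') ≤ 1 := by
    let g : LinearMap.ker N' →ₗ[K] LinearMap.ker N :=
      ((Submodule.subtype _) ∘ₗ (Submodule.subtype _)).codRestrict _ fun x => by
        rw [LinearMap.mem_ker]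
        have h5 : N' x.1 = 0 := x.2
        exact congrArg Subtype.val h5
    refine (LinearMap.finrank_le_finrank_of_injective (f := g) ?_).trans hker
    intro x y hxy
    have h5 := congrArg Subtype.val hxy
    exact Subtype.ext (Subtype.ext h5)
  have hex : ∃ v' : U, (N' ^ d) v' ≠ 0 := by
    by_contra hcon
    push Not at hcon
    have h1 : N' ^ d = 0 := LinearMap.ext hcon
    have h2 := finrank_ker_pow hker' d
    rw [h1, LinearMap.ker_zero, finrank_top, hd] at h2
    omega
  obtain ⟨v', hv'⟩ := hex
  have hrel' : (1 + N') * F' = F' * (1 + N') ^ p := by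
    have h1 : ∀ (j : ℕ) (x : U), (((1 + N') ^ j) x : V) = ((1 + N) ^ j) x := by
      intro j x
      induction j generalizing x with
      | zero => simp
      | succ j ih => rw [pow_succ, Module.End.mul_apply, ih, pow_succ, Module.End.mul_apply]; rfl
    apply LinearMap.ext
    intro x
    apply Subtype.ext
    rw [Module.End.mul_apply, Module.End.mul_apply]
    have h2 := LinearMap.congr_fun hrel (x : V)
    rw [Module.End.mul_apply, Module.End.mul_apply] at h2
    have h3 : ((F' (((1 + N') ^ p) x) : U) : V) = F ((((1 + N') ^ p) x : U) : V) := rfl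
    rw [h3, h1, ← h2]
    rfl
  obtain ⟨c', hc', hdet⟩ := det_block hN' hd hv' hrel'
  have hcc : c' = c := by
    obtain ⟨a, ha⟩ := ker_one hN hdim hv (x := ((N' ^ d) v' : U)) (by
      have h1 : N' ((N' ^ d) v') = 0 := by
        rw [← Module.End.mul_apply, ← pow_succ', ← hd, pow_top hN', LinearMap.zero_apply]
      exact congrArg Subtype.val h1)
    have ha0 : a ≠ 0 := by
      rintro rfl
      rw [zero_smul] at ha
      exact hv' (Subtype.ext ha)
    have h1 : F (((N' ^ d) v' : U) : V) = c' • (((N' ^ d) v' : U) : V) := congrArg Subtype.val hc'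
    rw [ha, map_smul, hc, smul_smul, smul_smul] at h1
    have h2 := smul_left_injective K hv h1
    have h3 : a * (c - c') = 0 := by
      rw [mul_sub, h2]
      ring
    exact (sub_eq_zero.1 ((mul_eq_zero.1 h3).resolve_left ha0)).symm
  rw [← hcc]
  exact hdet

/-- the square of the product -/
theorem prod_sq (c p : K) (d : ℕ) :
    (∏ i : Fin (d + 1), c * p ^ (d - (i : ℕ))) ^ 2 = c ^ (2 * (d + 1)) * p ^ (d * (d + 1)) := by
  rw [Finset.prod_mul_distrib, Finset.prod_const, card_univ, Fintype.card_fin]
  have h1 : ∏ i : Fin (d + 1), p ^ (d - (i : ℕ)) = p ^ (∑ i ∈ range (d + 1), i) := by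
    rw [Finset.prod_pow_eq_pow_sum, Fin.sum_univ_eq_sum_range (fun i => d - i) (d + 1)]
    congr 1
    have h2 := Finset.sum_range_reflect (fun i => i) (d + 1)
    simpa using h2
  rw [h1, mul_pow, ← pow_mul, ← pow_mul, Finset.sum_range_id_mul_two, Nat.add_sub_cancel,
    mul_comm (d + 1) 2, mul_comm (d + 1) d]

end Pool.Agent.Y126.MD
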