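import Pool.Agent.Y126.SH.Rel

/-!
# Products of roots which are powers of `q`, modulo almost all primes
-/

set_option autoImplicit false

namespace Pool.Agent.Y126.MD

open Polynomial NumberField Pool.Agent.Y800 Pool.Agent.Y126.SH

/-- For almost all characteristics the products of roots which are powers of `q` have the right
weight. -/
theorem wt_transfer {P : ℤ[X]} (hP : P.Monic) {p w : ℕ} (hp : 1 < p)
    (hpure : ∀ z : ℂ, z ∈ P.aroots ℂ → ‖z‖ ^ 2 = (p : ℝ) ^ w) (B : ℕ) :
    ∃ M : ℤ, M ≠ 0 ∧ ∀ (Ω : Type) [Field Ω] [IsAlgClosed Ω], (M : Ω) ≠ 0 →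
      ∀ (A : Multiset Ω) (a : ℕ), a ≤ B → A ≤ (P.map (Int.castRingHom Ω)).roots →
        A.prod = (p : Ω) ^ a → a * 2 = w * Multiset.card A := by
  classical
  obtain ⟨R, hR⟩ := exists_roots hP
  let E : Finset ZBar :=
    ((R.powerset ×ˢ Multiset.range (B + 1)).map
      fun x : Multiset ZBar × ℕ => x.1.prod - (p : ZBar) ^ x.2).toFinset
  have hm : ∀ e : ZBar, ∃ m : ℤ, e ≠ 0 → (m ≠ 0 ∧ ∃ r, e * r = m) := by
    intro e
    by_cases he : e = 0
    · exact ⟨0, fun h => absurd he h⟩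
    · obtain ⟨m, r, h1, h2⟩ := exists_int_mul he
      exact ⟨m, fun _ => ⟨h1, r, h2⟩⟩
  choose m hm using hm
  refine ⟨∏ e ∈ E.filter (fun e => e ≠ 0), m e, ?_, ?_⟩
  · rw [Finset.prod_ne_zero_iff]
    intro e he
    exact (hm e (Finset.mem_filter.1 he).2).1
  intro Ω _ _ hM A a ha hA hprod
  obtain ⟨ψ, hψ⟩ := extend_gen (R := ℤ) (S := ZBar) (k := Ω) (Int.castRingHom Ω)
  have hψi : ∀ i : ℤ, ψ (i : ZBar) = (i : Ω) := fun i => map_intCast ψ i
  have hgood : ∀ e ∈ E, ψ e = 0 → e = 0 := by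
    intro e he h0
    by_contra hne
    apply hM
    rw [Int.cast_prod]
    apply Finset.prod_eq_zero (Finset.mem_filter.2 ⟨he, hne⟩)
    obtain ⟨_, r, hr⟩ := hm e hne
    rw [← hψi, ← hr, map_mul, h0, zero_mul]
  rw [roots_map hR ψ] at hA
  obtain ⟨T, hTR, hT⟩ := exists_le_map ψ A R hA
  have hTp : T.prod = (p : ZBar) ^ a := by
    rw [← sub_eq_zero]
    apply hgood
    · rw [Multiset.mem_toFinset]
      exact Multiset.mem_map.2 ⟨(T, a), Multiset.mem_product.2
        ⟨Multiset.mem_powerset.2 hTR, Multiset.mem_range.2 (by omega)⟩, rfl⟩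
    · rw [map_sub, map_pow, map_natCast, ← hprod, ← hT, map_multiset_prod, sub_self]
  -- complex numbers
  obtain ⟨i, _⟩ := extend_gen (R := ℤ) (S := ZBar) (k := ℂ) (Int.castRingHom ℂ)
  have hroots : P.aroots ℂ = R.map i := roots_map hR i
  have h1 : (T.map i).prod = (p : ℂ) ^ a := by
    rw [← map_multiset_prod, hTp, map_pow, map_natCast]
  have h2 : ∀ T₁ : Multiset ZBar, T₁ ≤ R →
      ‖(T₁.map i).prod‖ ^ 2 = (p : ℝ) ^ (w * Multiset.card T₁) := by
    intro T₁
    induction T₁ using Multiset.induction_on with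
    | empty => intro _; simp
    | cons t T₁ ih =>
      intro hle
      rw [Multiset.map_cons, Multiset.prod_cons, norm_mul, mul_pow,
        ih ((Multiset.le_cons_self _ _).trans hle), hpure (i t) (by
          rw [hroots]
          exact Multiset.mem_map_of_mem i (Multiset.mem_of_le hle (Multiset.mem_cons_self _ _))),
        Multiset.card_cons, mul_add, mul_one, pow_add, mul_comm]
  have h3 := h2 T hTR
  rw [h1, norm_pow, Complex.norm_natCast, ← pow_mul] at h3
  have h4 : a * 2 = w * Multiset.card T :=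
    pow_right_injective₀ (by exact_mod_cast (by omega : 0 < p)) (by exact_mod_cast (by omega : p ≠ 1)) h3
  rw [h4, ← hT, Multiset.card_map]

end Pool.Agent.Y126.MD
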