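import Pool.Agent.Y126.MD.Defs
import Pool.Agent.Y126.MD.Lin
import Pool.Agent.Y126.MD.Rel
import Pool.Agent.Y126.SH.Irr

/-!
# Irreducibility of maximally degenerate representations
-/

set_option autoImplicit false

namespace Pool.Agent.Y126.MD

open Module Polynomial Pool.Agent.Y800 Pool.Agent.Y126.SH

/-- the eigenvalues on a stable subspace -/
theorem roots_sub {F : Type*} [Field F] {V : Type*} [AddCommGroup V] [Module F V]
    [FiniteDimensional F V] {W : Submodule F V} {e : V →ₗ[F] V} {Ω : Type*} [Field Ω] [Algebra F Ω]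
    [IsAlgClosed Ω] (hW : W ≤ W.comap e) :
    (e.restrict hW).charpoly.aroots Ω ≤ e.charpoly.aroots Ω ∧
    ((e.restrict hW).charpoly.aroots Ω).prod = algebraMap F Ω (LinearMap.det (e.restrict hW)) ∧
    Multiset.card ((e.restrict hW).charpoly.aroots Ω) = finrank F W := by
  have hmon : (e.restrict hW).charpoly.Monic := LinearMap.charpoly_monic _
  have hsp : ((e.restrict hW).charpoly.map (algebraMap F Ω)).Splits := IsAlgClosed.splits _
  have hc0 : (e.restrict hW).charpoly.eval 0 = (-1) ^ finrank F W * LinearMap.det (e.restrict hW) := by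
    rw [← coeff_zero_eq_eval_zero, LinearMap.det_eq_sign_charpoly_coeff, ← mul_assoc, ← mul_pow]
    simp
  refine ⟨?_, ?_, ?_⟩
  · rw [aroots_def, aroots_def]
    refine roots.le_of_dvd ((LinearMap.charpoly_monic e).map _).ne_zero (Polynomial.map_dvd _ ?_)
    rw [charpoly_eq_mul' hW]
    exact dvd_mul_right _ _
  · have h2 := hsp.coeff_zero_eq_prod_roots_of_monic (hmon.map _)
    rw [natDegree_map, coeff_map, coeff_zero_eq_eval_zero, LinearMap.charpoly_natDegree, hc0,
      map_mul, map_pow, map_neg, map_one] at h2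
    have h3 : ((-1 : Ω) ^ finrank F W) ≠ 0 := pow_ne_zero _ (by simp)
    exact (mul_left_cancel₀ h3 h2).symm
  · have h1 := hsp.natDegree_eq_card_roots
    rw [natDegree_map, LinearMap.charpoly_natDegree] at h1
    exact h1.symm

section core

variable {n : ℕ} {S : Finset ℕ} {w : ℕ} {T : IntegralSystem n} {ℓ : ℕ} [hℓ : Fact ℓ.Prime]
  {k : Type} [Field k] (φ : ℤ_[ℓ] →+* k)

/-- away from `ℓ` the inertia groups act trivially on determinants -/
theorem det_inertia (hT : T.PureSystem S w) {U : Submodule k (Fin n → k)}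
    (hU : IsStable (rep φ T) U)
    {p : ℕ} (hp : p.Prime) (hpℓ : ℓ ≠ p) {P : Ideal ZBar} (hP : P.IsMaximal) (hpP : (p : ZBar) ∈ P)
    {τ : GQ} (hτ : InInertia P τ) : detOn (rep φ T) U hU τ = 1 := by
  apply det_unip
  have h1 : IsNilpotent ((T.rho ℓ τ : Matrix (Fin n) (Fin n) ℤ_[ℓ]) - 1) := by
    by_cases hpS : p ∈ S
    · exact hT.semistable p hp hpS ℓ hpℓ P hP hpP τ hτ
    · rw [hT.unramified p hp hpS ℓ hpℓ P hP hpP τ hτ, Units.val_one, sub_self]
      exact IsNilpotent.zero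
  obtain ⟨m, hm⟩ := h1
  have h2 : ((rep φ T τ : Matrix (Fin n) (Fin n) k) - 1) ^ m = 0 := by
    have h3 : ((rep φ T τ : Matrix (Fin n) (Fin n) k) - 1) =
        φ.mapMatrix ((T.rho ℓ τ : Matrix (Fin n) (Fin n) ℤ_[ℓ]) - 1) := by
      rw [map_sub, map_one]; rfl
    rw [h3, ← map_pow, hm, map_zero]
  refine ⟨m, ?_⟩
  have h4 : (Matrix.toLin' (rep φ T τ : Matrix (Fin n) (Fin n) k)).restrict (hU τ) - 1 =
      (Matrix.toLin' ((rep φ T τ : Matrix (Fin n) (Fin n) k) - 1)).restrict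
        (p := U) (q := U) (fun x hx => by
          rw [map_sub, Matrix.toLin'_one]
          exact U.sub_mem (hU τ x hx) hx) := by
    apply LinearMap.ext
    intro x
    apply Subtype.ext
    show (Matrix.toLin' (rep φ T τ : Matrix (Fin n) (Fin n) k)) x.1 - x.1 =
      (Matrix.toLin' ((rep φ T τ : Matrix (Fin n) (Fin n) k) - 1)) x.1
    rw [map_sub, Matrix.toLin'_one]
    rfl
  rw [h4, Module.End.pow_restrict]
  apply LinearMap.ext
  intro x
  apply Subtype.ext
  rw [LinearMap.restrict_apply]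
  show ((Matrix.toLin' ((rep φ T τ : Matrix (Fin n) (Fin n) k) - 1)) ^ m) x = 0
  rw [← Matrix.toLin'_pow, h2, map_zero, LinearMap.zero_apply]

/-- **The determinants of stable subspaces.** -/
theorem weight_sub (hT : T.PureSystem S w) {c : ℕ}
    (hw : WeightsAt (rep φ T) (fun g => φ (chi ℓ g : ℤ_[ℓ])) ℓ c) (hmink : Mink φ T)
    {p : ℕ} (hp : p.Prime) (hpS : p ∉ S) (hpℓ : ℓ ≠ p) {M : ℤ} (hMk : (M : k) ≠ 0)
    (hM : ∀ (Ω : Type) [Field Ω] [IsAlgClosed Ω], (M : Ω) ≠ 0 →
      ∀ (A : Multiset Ω) (a : ℕ), a ≤ c → A ≤ ((T.poly p).map (Int.castRingHom Ω)).roots →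
        A.prod = (p : Ω) ^ a → a * 2 = w * Multiset.card A)
    (U : Submodule k (Fin n → k)) (hU : IsStable (rep φ T) U) :
    ∃ a : ℕ, a * 2 = w * finrank k U ∧
      ∀ g, detOn (rep φ T) U hU g * φ (chi ℓ g : ℤ_[ℓ]) ^ a = 1 := by
  classical
  obtain ⟨a, hac, ha⟩ := weights_sub hw U hU
  have hdet := hmink U hU a (by
    intro P hP τ hτ
    obtain ⟨q, hq, hqP⟩ := exists_prime_mem hP
    by_cases hqℓ : ℓ = q
    · subst hqℓ
      exact ha P hP hqP τ hτ
    · rw [det_inertia φ hT hU hq hqℓ hP hqP hτ, chi_inertia hq hqℓ hP hqP hτ, Units.val_one,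
        map_one, one_pow, mul_one])
  refine ⟨a, ?_, hdet⟩
  obtain ⟨P, σ, hP, hpP, hσ⟩ := exists_geom hp
  have hchip : φ (chi ℓ σ : ℤ_[ℓ]) * (p : k) = 1 := by
    have h1 := congrArg φ (chi_frob hp hpℓ hP hpP hσ)
    rwa [map_mul, map_natCast, map_one] at h1
  have hUσ : U ≤ U.comap (lin (rep φ T) σ) := fun u hu => hU σ u hu
  obtain ⟨h1, h2, h3⟩ := roots_sub (Ω := AlgebraicClosure k) hUσ
  have hdσ : LinearMap.det ((lin (rep φ T) σ).restrict hUσ) = (p : k) ^ a := by
    have h4 := hdet σ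
    have h5 : detOn (rep φ T) U hU σ = LinearMap.det ((lin (rep φ T) σ).restrict hUσ) := rfl
    rw [h5] at h4
    calc LinearMap.det ((lin (rep φ T) σ).restrict hUσ)
        = LinearMap.det ((lin (rep φ T) σ).restrict hUσ) *
          (φ (chi ℓ σ : ℤ_[ℓ]) * (p : k)) ^ a := by rw [hchip, one_pow, mul_one]
      _ = (LinearMap.det ((lin (rep φ T) σ).restrict hUσ) * φ (chi ℓ σ : ℤ_[ℓ]) ^ a) *
          (p : k) ^ a := by rw [mul_pow]; ring
      _ = (p : k) ^ a := by rw [h4, one_mul]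
  have hchar : (lin (rep φ T) σ).charpoly = (T.poly p).map (Int.castRingHom k) := by
    have h4 := hT.frobenius p hp hpS ℓ hpℓ P hP hpP σ hσ
    have h5 : (lin (rep φ T) σ).charpoly = (rep φ T σ : Matrix (Fin n) (Fin n) k).charpoly := by
      rw [← LinearMap.charpoly_toMatrix _ (Pi.basisFun k (Fin n))]
      congr 1
      exact LinearMap.toMatrix'_toLin' _
    rw [h5, rep_val, Matrix.charpoly_map, h4, Polynomial.map_map]
    congr 1
    exact RingHom.ext_int _ _
  have hroots : (lin (rep φ T) σ).charpoly.aroots (AlgebraicClosure k) =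
      ((T.poly p).map (Int.castRingHom (AlgebraicClosure k))).roots := by
    rw [hchar, aroots_def, Polynomial.map_map]
    congr 2
  rw [hroots] at h1
  rw [hdσ, map_pow, map_natCast] at h2
  have hMΩ : (M : AlgebraicClosure k) ≠ 0 := by
    rw [← map_intCast (algebraMap k (AlgebraicClosure k))]
    exact (_root_.map_ne_zero _).2 hMk
  rw [← h3]
  exact hM (AlgebraicClosure k) hMΩ _ a hac h1 h2

/-- **One Jordan block: irreducibility.** -/
theorem irr_block (hn : 0 < n) {p : ℕ} (hp : p.Prime) (hpℓ : ℓ ≠ p)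
    (hdeg : OneBlockAt (rep φ T) p) (hpk : ∀ e : ℕ, 0 < e → e ≤ n ^ 3 → (p : k) ^ e ≠ 1)
    (hwt : ∀ (U : Submodule k (Fin n → k)) (hU : IsStable (rep φ T) U), ∃ a : ℕ,
      a * 2 = w * finrank k U ∧ ∀ g, detOn (rep φ T) U hU g * φ (chi ℓ g : ℤ_[ℓ]) ^ a = 1)
    (U : Submodule k (Fin n → k)) (hU : IsStable (rep φ T) U) : U = ⊥ ∨ U = ⊤ := by
  classical
  obtain ⟨P, σ, g, hP, hpP, hσ, hrel, hnil, hne⟩ := hdeg
  have hchip : φ (chi ℓ σ : ℤ_[ℓ]) * (p : k) = 1 := by
    have h1 := congrArg φ (chi_frob hp hpℓ hP hpP hσ)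
    rwa [map_mul, map_natCast, map_one] at h1
  have hpk0 : (p : k) ≠ 0 := right_ne_zero_of_mul_eq_one hchip
  obtain ⟨D, rfl⟩ : ∃ D, n = D + 1 := ⟨n - 1, by omega⟩
  let F : End k (Fin (D + 1) → k) := Matrix.toLin' (rep φ T σ : Matrix (Fin (D + 1)) (Fin (D + 1)) k)
  let N : End k (Fin (D + 1) → k) :=
    Matrix.toLin' ((rep φ T g : Matrix (Fin (D + 1)) (Fin (D + 1)) k) - 1)
  have hN1 : 1 + N = Matrix.toLin' (rep φ T g : Matrix (Fin (D + 1)) (Fin (D + 1)) k) := by
    show 1 + Matrix.toLin' ((rep φ T g : Matrix (Fin (D + 1)) (Fin (D + 1)) k) - 1) = _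
    rw [map_sub, Matrix.toLin'_one]
    exact add_sub_cancel (1 : End k (Fin (D + 1) → k)) _
  have hN : IsNilpotent N := by
    obtain ⟨m, hm⟩ := hnil
    refine ⟨m, ?_⟩
    show (Matrix.toLin' ((rep φ T g : Matrix (Fin (D + 1)) (Fin (D + 1)) k) - 1)) ^ m = 0
    rw [← Matrix.toLin'_pow, hm, map_zero]
  have hv : ∃ v, (N ^ D) v ≠ 0 := by
    by_contra hcon
    push Not at hcon
    apply hne
    have h1 : (Matrix.toLin' ((rep φ T g : Matrix (Fin (D + 1)) (Fin (D + 1)) k) - 1)) ^ D = 0 :=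
      LinearMap.ext hcon
    rw [← Matrix.toLin'_pow] at h1
    have h2 := (Matrix.toLin' (R := k) (m := Fin (D + 1)) (n := Fin (D + 1))).injective
      (h1.trans (map_zero _).symm)
    rw [Nat.add_sub_cancel]
    exact h2
  obtain ⟨v, hv⟩ := hv
  have hrel' : (1 + N) * F = F * (1 + N) ^ p := by
    rw [hN1]
    show Matrix.toLin' _ ∘ₗ Matrix.toLin' _ = Matrix.toLin' _ ∘ₗ (Matrix.toLin' _) ^ p
    rw [← Matrix.toLin'_pow, ← Matrix.toLin'_mul, ← Matrix.toLin'_mul, ← Units.val_mul, hrel,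
      Units.val_mul, Units.val_pow_eq_pow_val]
  have hdim : finrank k (Fin (D + 1) → k) = D + 1 := finrank_fin_fun k
  obtain ⟨c, hc, -⟩ := det_block hN hdim hv hrel'
  -- the determinants
  have hsub : ∀ (W : Submodule k (Fin (D + 1) → k)) (_ : IsStable (rep φ T) W) (d : ℕ),
      finrank k W = d + 1 → c ^ (2 * (d + 1)) * (p : k) ^ (d * (d + 1)) = (p : k) ^ (w * (d + 1)) := by
    intro W hW d hd
    have hWN : ∀ x ∈ W, N x ∈ W := by
      intro x hx
      have h1 : N x = (Matrix.toLin' (rep φ T g : Matrix (Fin (D + 1)) (Fin (D + 1)) k)) x - x := by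
        show (Matrix.toLin' ((rep φ T g : Matrix (Fin (D + 1)) (Fin (D + 1)) k) - 1)) x = _
        rw [map_sub, Matrix.toLin'_one]
        rfl
      rw [h1]
      exact W.sub_mem (hW g x hx) hx
    have h1 := det_sub hN hdim hv hrel' hc hWN (hW σ) hd
    obtain ⟨a, ha, hag⟩ := hwt W hW
    have h2 : LinearMap.det (F.restrict (hW σ)) = (p : k) ^ a := by
      have h4 := hag σ
      have h5 : detOn (rep φ T) W hW σ = LinearMap.det (F.restrict (hW σ)) := rfl
      rw [h5] at h4
      calc LinearMap.det (F.restrict (hW σ))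
          = LinearMap.det (F.restrict (hW σ)) *
            (φ (chi ℓ σ : ℤ_[ℓ]) * (p : k)) ^ a := by rw [hchip, one_pow, mul_one]
        _ = (LinearMap.det (F.restrict (hW σ)) * φ (chi ℓ σ : ℤ_[ℓ]) ^ a) *
            (p : k) ^ a := by rw [mul_pow]; ring
        _ = (p : k) ^ a := by rw [h4, one_mul]
    rw [← prod_sq, ← h1]
    show (LinearMap.det (F.restrict (hW σ))) ^ 2 = _
    rw [h2, ← pow_mul, ha, hd]
  rcases Nat.eq_zero_or_pos (finrank k U) with h0 | hpos
  · left
    exact Submodule.finrank_eq_zero.1 h0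
  · right
    obtain ⟨d, hd⟩ : ∃ d, finrank k U = d + 1 := ⟨finrank k U - 1, by omega⟩
    have hle : d ≤ D := by
      have := Submodule.finrank_le U
      rw [hdim, hd] at this
      omega
    rcases Nat.lt_or_ge d D with hlt | hge
    · exfalso
      have e1 := hsub U hU d hd
      have htop : IsStable (rep φ T) ⊤ := fun _ _ _ => Submodule.mem_top
      have e2 := hsub ⊤ htop D (by rw [finrank_top, hdim])
      have e3 : (c ^ (2 * (d + 1)) * (p : k) ^ (d * (d + 1))) ^ (D + 1) =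
          (c ^ (2 * (D + 1)) * (p : k) ^ (D * (D + 1))) ^ (d + 1) := by
        rw [e1, e2, ← pow_mul, ← pow_mul]
        congr 1
        ring
      rw [mul_pow, mul_pow, ← pow_mul, ← pow_mul, ← pow_mul, ← pow_mul] at e3
      have e4 : 2 * (d + 1) * (D + 1) = 2 * (D + 1) * (d + 1) := by ring
      rw [e4] at e3
      have hc0 : c ≠ 0 := by
        rintro rfl
        rw [zero_pow (by omega), zero_mul] at e1
        exact pow_ne_zero _ hpk0 e1.symm
      have e5 := mul_left_cancel₀ (pow_ne_zero _ hc0) e3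
      obtain ⟨t, rfl⟩ : ∃ t, D = d + t := ⟨D - d, by omega⟩
      have e6 : (d + t) * (d + t + 1) * (d + 1) = d * (d + 1) * (d + t + 1) +
          t * (d + t + 1) * (d + 1) := by ring
      rw [e6, pow_add] at e5
      have e7 : (p : k) ^ (t * (d + t + 1) * (d + 1)) = 1 := by
        have h8 : (p : k) ^ (d * (d + 1) * (d + t + 1)) * 1 =
            (p : k) ^ (d * (d + 1) * (d + t + 1)) * (p : k) ^ (t * (d + t + 1) * (d + 1)) := by
          rw [mul_one]
          exact e5
        exact (mul_left_cancel₀ (pow_ne_zero _ hpk0) h8).symm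
      refine hpk _ ?_ ?_ e7
      · have : 0 < t := by omega
        positivity
      · calc t * (d + t + 1) * (d + 1) ≤ (d + t + 1) * (d + t + 1) * (d + t + 1) := by
              gcongr; omega
          _ = (d + t + 1) ^ 3 := by ring
    · apply Submodule.eq_top_of_finrank_eq
      rw [hdim, hd]
      omega

end core

end Pool.Agent.Y126.MD
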